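import Pool.Agent.Q297.BC.Gap

/-!
# The mean occupation time at the critical point of a two-dimensional update family

For every update family the mean occupation time of the origin at `p = p_c` is either `0` (all
directions are stable, `p_c = 1`) or infinite (some direction is not stable, `p_c < 1`); in the
second case `ℙ_{p_c}(T > t) ≥ c / t`, and at every `p` either `ℙ_p(T > t) ≥ c / t` for all `t` or
the tail of `T` is exponential.
-/

open MeasureTheory Filter Topology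
open scoped ENNReal

open Pool.Agent.Q297.BC

namespace Pool.Agent.Results.MP_28b826_pr.MeanTimeAtCriticality

theorem lt_T_iff (U : Finset (Finset Site)) (t : ℕ) (ω : Conf) :
    (t : ℝ≥0∞) < T U ω ↔ (0 : Site) ∉ evo U t (ini ω) := by
  constructor
  · intro h hcon
    have : T U ω ≤ t := iInf₂_le_of_le t hcon le_rfl
    exact absurd h (not_lt.2 this)
  · intro h
    have h1 : ((t + 1 : ℕ) : ℝ≥0∞) ≤ T U ω := by
      refine le_iInf₂ fun m hm => ?_
      have : t + 1 ≤ m := by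
        by_contra hcon
        exact h (evo_mono U _ (by omega : m ≤ t) hm)
      exact_mod_cast this
    refine lt_of_lt_of_le ?_ h1
    exact_mod_cast Nat.lt_succ_self t

theorem law_lt_T (U : Finset (Finset Site)) (t : ℕ) (p : ℝ) :
    (law p).real {ω | (t : ℝ≥0∞) < T U ω} = tau U t p := by
  unfold tau
  rw [measureReal_def]
  congr 2
  ext ω
  exact lt_T_iff U t ω

theorem main_nontrivial {U : Finset (Finset Site)} (hU : ∀ X ∈ U, X.Nonempty)
    (hθ : ∃ θ : ℝ, θ ∉ stableAngles U) :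
    pc U < 1 ∧ ∫⁻ ω, T U ω ∂(law (pc U)) = ∞ ∧
      ∃ c : ℝ, 0 < c ∧
        (∀ t : ℕ, 1 ≤ t → c / t ≤ (law (pc U)).real {ω | (t : ℝ≥0∞) < T U ω}) ∧
        ∀ p : ℝ, 0 ≤ p → p ≤ 1 →
          (∀ t : ℕ, 1 ≤ t → c / t ≤ (law p).real {ω | (t : ℝ≥0∞) < T U ω}) ∨
          (law p (perc U) = 1 ∧ ∃ K r : ℝ, 0 < r ∧
            ∀ t : ℕ, (law p).real {ω | (t : ℝ≥0∞) < T U ω} ≤ K * Real.exp (-r * t)) := by
  obtain ⟨θ, hθ⟩ := hθ
  obtain ⟨X, hX, hneg⟩ := exists_rule hθ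
  refine ⟨pc_lt_one hU hX hneg, mean_T_pc hU hX hneg, ?_⟩
  obtain ⟨C1, hC1, h1⟩ := tau_pc_ge hU hX hneg
  obtain ⟨C2, hC2, h2⟩ := gap hU hX hneg
  have e1 : (1 : ℝ) ≤ C1 := by exact_mod_cast hC1
  have e2 : (1 : ℝ) ≤ C2 := by exact_mod_cast hC2
  have key : ∀ (C : ℝ), 1 ≤ C → C ≤ C1 + C2 → ∀ t : ℕ, 1 ≤ t →
      (1 / (2 * (C1 + C2)) : ℝ) / t ≤ 1 / (C * (t + 1)) := by
    intro C hC hCle t ht
    have ht' : (1 : ℝ) ≤ t := by exact_mod_cast ht
    rw [div_div]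
    refine one_div_le_one_div_of_le (by positivity) ?_
    nlinarith
  refine ⟨1 / (2 * (C1 + C2)), by positivity, ?_, ?_⟩
  · intro t ht
    rw [law_lt_T]
    exact (key C1 e1 (by linarith) t ht).trans (h1 t)
  · intro p _ _
    by_cases hex : ∃ t : ℕ, tau U t p * (C2 * (t + 1)) < 1
    · obtain ⟨t, ht⟩ := hex
      obtain ⟨h3, K, r, hr, h4⟩ := h2 t p ht
      refine Or.inr ⟨h3, K, r, hr, fun n => ?_⟩
      rw [law_lt_T]; exact h4 n
    · push Not at hex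
      refine Or.inl fun t ht => ?_
      rw [law_lt_T]
      refine (key C2 e2 (by linarith) t ht).trans ?_
      rw [div_le_iff₀ (by positivity)]
      exact hex t

/-- The mean occupation time at criticality. -/
theorem result :
    (∀ U : Finset (Finset Site), (∀ X ∈ U, X.Nonempty) →
      ((∀ θ : ℝ, θ ∈ stableAngles U) →
        pc U = 1 ∧ law (pc U) (perc U) = 1 ∧ ∫⁻ ω, T U ω ∂(law (pc U)) = 0) ∧
      ((∃ θ : ℝ, θ ∉ stableAngles U) →
        pc U < 1 ∧ ∫⁻ ω, T U ω ∂(law (pc U)) = ∞ ∧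
        ∃ c : ℝ, 0 < c ∧
          (∀ t : ℕ, 1 ≤ t → c / t ≤ (law (pc U)).real {ω | (t : ℝ≥0∞) < T U ω}) ∧
          ∀ p : ℝ, 0 ≤ p → p ≤ 1 →
            (∀ t : ℕ, 1 ≤ t → c / t ≤ (law p).real {ω | (t : ℝ≥0∞) < T U ω}) ∨
            (law p (perc U) = 1 ∧ ∃ K r : ℝ, 0 < r ∧
              ∀ t : ℕ, (law p).real {ω | (t : ℝ≥0∞) < T U ω} ≤ K * Real.exp (-r * t)))) ∧
    (∀ U : Finset (Finset Site), Subcritical U → law (pc U) (perc U) = 1 →
      (∫⁻ ω, T U ω ∂(law (pc U)) < ∞ ↔ pc U = 1)) := by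
  have hfirst : ∀ U : Finset (Finset Site), (∀ θ : ℝ, θ ∈ stableAngles U) →
      pc U = 1 ∧ law (pc U) (perc U) = 1 ∧ ∫⁻ ω, T U ω ∂(law (pc U)) = 0 := by
    intro U hall
    have h1 := pc_eq_one hall
    rw [h1]
    exact ⟨rfl, law_one_perc U, mean_T_one U⟩
  refine ⟨fun U hU => ⟨hfirst U, main_nontrivial hU⟩, fun U hU _ => ?_⟩
  by_cases hall : ∀ θ : ℝ, θ ∈ stableAngles U
  · obtain ⟨h1, _, h3⟩ := hfirst U hall
    rw [h3]
    exact ⟨fun _ => h1, fun _ => ENNReal.zero_lt_top⟩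
  · push Not at hall
    obtain ⟨h1, h2, _⟩ := main_nontrivial hU.nonempty hall
    rw [h2]
    exact ⟨fun h => absurd h (lt_irrefl _), fun h => absurd h h1.ne⟩

end Pool.Agent.Results.MP_28b826_pr.MeanTimeAtCriticality
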